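import Mathlib
import Pool.Agent.N375.AV.L2

set_option autoImplicit false

/-! Exceptional sets of real numbers whose measure has a saving of every power of the logarithm. -/

open Filter Topology MeasureTheory Finset

namespace Pool.Agent.N897.AVR

open Pool.Agent.N733.TG (Expanding step_sum)
open Pool.Agent.N375.AV (PD comp LogThin near_log comp_log absorb logThin_mono)

lemma units_card (B : Set ℝ) (F : Finset ℕ) (hF : ∀ q ∈ F, Set.Ico (q : ℝ) (q + 1) ⊆ B) {V : ℝ} (hV : 0 ≤ V)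
    (hB : volume B ≤ ENNReal.ofReal V) : (F.card : ℝ) ≤ V := by
  have h1 : volume (⋃ q ∈ F, Set.Ico (q : ℝ) (q + 1)) = ∑ q ∈ F, volume (Set.Ico (q : ℝ) (q + 1)) := by
    apply measure_biUnion_finset
    · intro u hu v hv huv
      rw [Function.onFun, Set.disjoint_left]
      rintro x ⟨hx1, hx2⟩ ⟨hx3, hx4⟩
      rcases lt_or_gt_of_ne huv with hlt | hlt
      · have : (u : ℝ) + 1 ≤ v := by exact_mod_cast hlt
        linarith
      · have : (v : ℝ) + 1 ≤ u := by exact_mod_cast hlt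
        linarith
    · intro q _
      exact measurableSet_Ico
  have h2 : ∑ q ∈ F, volume (Set.Ico (q : ℝ) (q + 1)) = ENNReal.ofReal (F.card) := by
    simp only [Real.volume_Ico, add_sub_cancel_left, sum_const, nsmul_eq_mul, ENNReal.ofReal_one, mul_one,
      ENNReal.ofReal_natCast]
  have h3 : volume (⋃ q ∈ F, Set.Ico (q : ℝ) (q + 1)) ≤ volume B := measure_mono (Set.iUnion₂_subset hF)
  rw [h1, h2] at h3
  exact (ENNReal.ofReal_le_ofReal_iff hV).1 (h3.trans hB)

open Classical in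
/-- from dyadic intervals to all intervals -/
lemma logThin_dyadic {E : Set ℕ} (h : ∀ A : ℕ, ∃ X₀ : ℕ, ∀ X : ℕ, X₀ ≤ X →
    (((Ico X (2 * X)).filter (fun n => n ∈ E)).card : ℝ) ≤ X / Real.log X ^ A) : LogThin E := by
  intro A
  obtain ⟨X₀, hX₀⟩ := h A
  -- eventual estimates
  obtain ⟨X₁, hX₁⟩ : ∃ X₁ : ℕ, 2 * X₀ + 4 ≤ X₁ ∧ 1 + 2 * Real.log 2 ≤ Real.log X₁ ∧
      3 * A * Real.log 3 ≤ 1 + Real.log X₁ := by
    have hlogt : Tendsto (fun X : ℕ => Real.log (X : ℝ)) atTop atTop :=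
      Real.tendsto_log_atTop.comp tendsto_natCast_atTop_atTop
    have e1 := hlogt.eventually (eventually_ge_atTop (1 + 2 * Real.log 2))
    have e2 := hlogt.eventually (eventually_ge_atTop (3 * A * Real.log 3 - 1))
    obtain ⟨X₁, g1, g2, g3⟩ := (e1.and (e2.and (eventually_ge_atTop (2 * X₀ + 4)))).exists
    exact ⟨X₁, g3, g1, by linarith⟩
  obtain ⟨k1, k2, k3⟩ := hX₁
  have hX1r : (1 : ℝ) ≤ X₁ := by exact_mod_cast (by omega : 1 ≤ X₁)
  have hlX1 : 0 ≤ Real.log X₁ := Real.log_nonneg hX1r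
  obtain ⟨K, hK⟩ : ∃ K : ℝ, K = 4 * 2 ^ A + 2 * (1 + Real.log X₁) ^ A := ⟨_, rfl⟩
  have hK0 : 0 < K := by rw [hK]; positivity
  refine ⟨K, fun X => ?_⟩
  induction X using Nat.strong_induction_on with
  | _ X ih =>
    intro hX
    have hXr : (1 : ℝ) ≤ X := by exact_mod_cast hX
    have hX0 : (0 : ℝ) < X := by linarith
    have hL0 : 0 ≤ Real.log X := Real.log_nonneg hXr
    have hP : 0 < (1 + Real.log X) ^ A := by positivity
    rcases lt_or_ge X X₁ with hlt | hge
    · -- small X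
      have h1 : (((range (X + 1)).filter (fun v => v ∈ E)).card : ℝ) ≤ X + 1 := by
        have h5 : ((range (X + 1)).filter (fun v => v ∈ E)).card ≤ X + 1 := (card_filter_le _ _).trans (by simp)
        exact_mod_cast h5
      rw [le_div_iff₀ hP]
      have h2 : (1 + Real.log X) ^ A ≤ (1 + Real.log X₁) ^ A := by
        apply pow_le_pow_left₀ (by linarith)
        have := Real.log_le_log hX0 (show (X : ℝ) ≤ X₁ by exact_mod_cast hlt.le)
        linarith
      calc (((range (X + 1)).filter (fun v => v ∈ E)).card : ℝ) * (1 + Real.log X) ^ A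
          ≤ (X + 1) * (1 + Real.log X₁) ^ A := mul_le_mul h1 h2 hP.le (by positivity)
        _ ≤ (2 * X) * (1 + Real.log X₁) ^ A := by
            apply mul_le_mul_of_nonneg_right (by linarith) (by positivity)
        _ = (2 * (1 + Real.log X₁) ^ A) * X := by ring
        _ ≤ K * X := by
            apply mul_le_mul_of_nonneg_right _ hX0.le
            rw [hK]
            have : (0 : ℝ) ≤ 4 * 2 ^ A := by positivity
            linarith
    · -- large X
      obtain ⟨Y, hY⟩ : ∃ Y : ℕ, Y = X / 2 := ⟨_, rfl⟩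
      have hY1 : 1 ≤ Y := by omega
      have hYX : Y < X := by omega
      have hYX2 : 2 * Y ≤ X := by omega
      have hYX3 : X ≤ 2 * Y + 1 := by omega
      have hX₀Y : X₀ ≤ Y + 1 := by omega
      have a1 := ih Y hYX hY1
      have a2 := hX₀ (Y + 1) hX₀Y
      have hsub : (range (X + 1)).filter (fun v => v ∈ E) ⊆
          (range (Y + 1)).filter (fun v => v ∈ E) ∪ (Ico (Y + 1) (2 * (Y + 1))).filter (fun n => n ∈ E) := by
        intro v hv
        rw [mem_filter, mem_range] at hv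
        rw [mem_union, mem_filter, mem_filter, mem_range, mem_Ico]
        rcases lt_or_ge v (Y + 1) with h' | h'
        · exact Or.inl ⟨h', hv.2⟩
        · exact Or.inr ⟨⟨h', by omega⟩, hv.2⟩
      have a3 : (((range (X + 1)).filter (fun v => v ∈ E)).card : ℝ) ≤
          (((range (Y + 1)).filter (fun v => v ∈ E)).card : ℝ) +
          (((Ico (Y + 1) (2 * (Y + 1))).filter (fun n => n ∈ E)).card : ℝ) := by
        exact_mod_cast (card_le_card hsub).trans (card_union_le _ _)
      have hYr : (1 : ℝ) ≤ Y := by exact_mod_cast hY1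
      have hY0 : (0 : ℝ) < Y := by linarith
      have hYX' : (Y : ℝ) ≤ X / 2 := by
        have : (2 : ℝ) * Y ≤ X := by exact_mod_cast hYX2
        linarith
      have hYX3' : (X : ℝ) / 3 ≤ Y := by
        have : (X : ℝ) ≤ 2 * Y + 1 := by exact_mod_cast hYX3
        linarith
      have hYX4' : (X : ℝ) / 2 ≤ (Y + 1 : ℕ) := by
        have : (X : ℝ) ≤ 2 * Y + 1 := by exact_mod_cast hYX3
        push_cast
        linarith
      have hlX : Real.log X₁ ≤ Real.log X := Real.log_le_log (by linarith) (by exact_mod_cast hge)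
      have hl2 : 0 < Real.log 2 := Real.log_pos (by norm_num)
      have hl3 : 0 < Real.log 3 := Real.log_pos (by norm_num)
      -- first part
      have b1 : (2 / 3) * (1 + Real.log X) ^ A ≤ (1 + Real.log Y) ^ A := by
        have c1 : Real.log X - Real.log 3 ≤ Real.log Y := by
          rw [← Real.log_div hX0.ne' (by norm_num)]
          exact Real.log_le_log (by positivity) hYX3'
        obtain ⟨x, hx⟩ : ∃ x : ℝ, x = Real.log 3 / (1 + Real.log X) := ⟨_, rfl⟩
        have hx0 : 0 ≤ x := by rw [hx]; positivity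
        have hx1 : A * x ≤ 1 / 3 := by
          rw [hx, mul_div_assoc', div_le_iff₀ (by linarith)]
          linarith
        have hx2 : x ≤ 2 := by
          rw [hx, div_le_iff₀ (by linarith)]
          have : Real.log 3 ≤ 2 * 1 := by
            have := Real.log_le_sub_one_of_pos (show (0 : ℝ) < 3 by norm_num)
            linarith
          linarith
        have c2 := one_add_mul_le_pow (show (-2 : ℝ) ≤ -x by linarith) A
        have c3 : (2 : ℝ) / 3 ≤ (1 + -x) ^ A := by
          refine le_trans ?_ c2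
          nlinarith
        have c4 : (1 + Real.log X) * (1 + -x) = 1 + Real.log X - Real.log 3 := by
          rw [hx]
          have : (1 + Real.log X) ≠ 0 := by linarith
          field_simp
          ring
        have c5 : 0 ≤ 1 + Real.log X - Real.log 3 := by
          have : Real.log 3 ≤ 2 * Real.log 2 := by
            rw [show (2 : ℝ) * Real.log 2 = Real.log (2 ^ 2) by rw [Real.log_pow]; norm_num]
            exact Real.log_le_log (by norm_num) (by norm_num)
          linarith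
        calc (2 / 3) * (1 + Real.log X) ^ A ≤ (1 + -x) ^ A * (1 + Real.log X) ^ A :=
              mul_le_mul_of_nonneg_right c3 hP.le
          _ = (1 + Real.log X - Real.log 3) ^ A := by rw [← mul_pow, mul_comm, c4]
          _ ≤ (1 + Real.log Y) ^ A := pow_le_pow_left₀ c5 (by linarith) A
      have hPY : 0 < (1 + Real.log Y) ^ A := by
        have : 0 ≤ Real.log Y := Real.log_nonneg hYr
        positivity
      have b2 : K * Y / (1 + Real.log Y) ^ A ≤ 3 / 4 * (K * X / (1 + Real.log X) ^ A) := by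
        rw [div_le_iff₀ hPY]
        calc K * Y ≤ K * (X / 2) := mul_le_mul_of_nonneg_left hYX' hK0.le
          _ = 3 / 4 * (K * X / (1 + Real.log X) ^ A) * ((2 / 3) * (1 + Real.log X) ^ A) := by
              field_simp
              ring
          _ ≤ 3 / 4 * (K * X / (1 + Real.log X) ^ A) * (1 + Real.log Y) ^ A :=
              mul_le_mul_of_nonneg_left b1 (by positivity)
      -- second part
      have b3 : (((Ico (Y + 1) (2 * (Y + 1))).filter (fun n => n ∈ E)).card : ℝ) ≤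
          2 ^ A * X / (1 + Real.log X) ^ A := by
        refine a2.trans ?_
        have c1 : Real.log X - Real.log 2 ≤ Real.log (Y + 1 : ℕ) := by
          rw [← Real.log_div hX0.ne' (by norm_num)]
          exact Real.log_le_log (by positivity) hYX4'
        have c2 : (1 + Real.log X) / 2 ≤ Real.log (Y + 1 : ℕ) := by linarith
        have c3 : ((Y + 1 : ℕ) : ℝ) ≤ X := by exact_mod_cast hYX
        have c4 : ((1 + Real.log X) / 2) ^ A ≤ Real.log (Y + 1 : ℕ) ^ A := pow_le_pow_left₀ (by linarith) c2 A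
        calc ((Y + 1 : ℕ) : ℝ) / Real.log (Y + 1 : ℕ) ^ A ≤ X / ((1 + Real.log X) / 2) ^ A := by
              apply div_le_div₀ hX0.le c3 (by positivity) c4
          _ = 2 ^ A * X / (1 + Real.log X) ^ A := by
              rw [div_pow]
              field_simp
      have b4 : 2 ^ A * X / (1 + Real.log X) ^ A ≤ 1 / 4 * (K * X / (1 + Real.log X) ^ A) := by
        rw [← mul_div_assoc]
        apply div_le_div_of_nonneg_right _ hP.le
        rw [← mul_assoc]
        apply mul_le_mul_of_nonneg_right _ hX0.le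
        rw [hK]
        have : 0 ≤ (1 + Real.log X₁) ^ A := by positivity
        linarith
      linarith

open Classical in
/-- the unit intervals in a set with a saving of every power of the logarithm -/
lemma logThin_units {B : Set ℝ} (hB : ∀ A : ℕ, ∃ T₀ : ℝ, ∀ T : ℝ, T₀ ≤ T →
    volume (B ∩ Set.Icc T (2 * T)) ≤ ENNReal.ofReal (T / Real.log T ^ A)) :
    LogThin {n : ℕ | Set.Ico (n : ℝ) (n + 1) ⊆ B} := by
  apply logThin_dyadic
  intro A
  obtain ⟨T₀, hT₀⟩ := hB A
  obtain ⟨X₀, hX₀⟩ := exists_nat_ge (max T₀ 2)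
  refine ⟨X₀, fun X hX => ?_⟩
  have hX1 : max T₀ 2 ≤ (X : ℝ) := hX₀.trans (by exact_mod_cast hX)
  have hX2 : T₀ ≤ X := (le_max_left _ _).trans hX1
  have hX3 : (2 : ℝ) ≤ X := (le_max_right _ _).trans hX1
  have hl : 0 ≤ Real.log X := Real.log_nonneg (by linarith)
  apply units_card (B ∩ Set.Icc (X : ℝ) (2 * X)) _ _ (by positivity) (hT₀ X hX2)
  intro q hq
  rw [mem_filter, mem_Ico] at hq
  obtain ⟨⟨h1, h2⟩, h3⟩ := hq
  refine Set.subset_inter h3 ?_
  rintro x ⟨hx1, hx2⟩
  have h4 : (X : ℝ) ≤ q := by exact_mod_cast h1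
  have h5 : (q : ℝ) + 1 ≤ 2 * X := by exact_mod_cast h2
  exact ⟨by linarith, by linarith⟩

/-- finite sets -/
lemma logThin_lt (v₀ : ℕ) : LogThin {v : ℕ | v < v₀} := by
  classical
  intro A
  obtain ⟨K₄, hK₄, habs⟩ := absorb A (b := 1) (c := 1) one_pos one_pos
  refine ⟨v₀ * K₄, fun X hX => ?_⟩
  have hX1 : (1 : ℝ) ≤ X := by exact_mod_cast hX
  have hX0 : (0 : ℝ) < X := by linarith
  have hL0 : 0 ≤ Real.log X := Real.log_nonneg hX1
  have hPA : 0 < (1 + Real.log X) ^ A := by positivity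
  have h1 : (1 + Real.log X) ^ A ≤ K₄ * X := by
    have h2 := habs (Real.log X) hL0
    rw [Real.rpow_one, one_mul, Real.exp_log hX0] at h2
    exact h2
  have h2 : ((range (X + 1)).filter (fun v => v ∈ {v : ℕ | v < v₀})).card ≤ v₀ := by
    calc _ ≤ (range v₀).card := card_le_card fun v hv => mem_range.2 (mem_filter.1 hv).2
      _ = v₀ := card_range _
  have h3 : (((range (X + 1)).filter (fun v => v ∈ {v : ℕ | v < v₀})).card : ℝ) ≤ v₀ := by exact_mod_cast h2
  rw [le_div_iff₀ hPA]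
  refine le_trans (mul_le_mul (le_trans (le_of_eq (by congr!)) h3) h1 hPA.le (by positivity)) (le_of_eq (by ring))

lemma logThin_union {E E' : Set ℕ} (h : LogThin E) (h' : LogThin E') : LogThin (E ∪ E') := by
  classical
  intro A
  obtain ⟨K, hK⟩ := h A
  obtain ⟨K', hK'⟩ := h' A
  refine ⟨K + K', fun X hX => ?_⟩
  have h1 : (range (X + 1)).filter (fun v => v ∈ E ∪ E') ⊆
      (range (X + 1)).filter (fun v => v ∈ E) ∪ (range (X + 1)).filter (fun v => v ∈ E') := by
    intro v hv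
    rw [mem_filter] at hv
    rw [mem_union, mem_filter, mem_filter]
    rcases hv.2 with h2 | h2
    · exact Or.inl ⟨hv.1, h2⟩
    · exact Or.inr ⟨hv.1, h2⟩
  have h2 : (((range (X + 1)).filter (fun v => v ∈ E ∪ E')).card : ℝ) ≤
      (((range (X + 1)).filter (fun v => v ∈ E)).card : ℝ) + (((range (X + 1)).filter (fun v => v ∈ E')).card : ℝ) := by
    exact_mod_cast (card_le_card h1).trans (card_union_le _ _)
  have h3 := hK X hX
  have h4 := hK' X hX
  have h5 : (K + K') * X / (1 + Real.log X) ^ A = K * X / (1 + Real.log X) ^ A + K' * X / (1 + Real.log X) ^ A := by ring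
  rw [h5]
  calc _ = (((range (X + 1)).filter (fun v => v ∈ E ∪ E')).card : ℝ) := by congr!
    _ ≤ _ := h2
    _ = _ + _ := by congr!
    _ ≤ _ := add_le_add h3 h4

/-- large values -/
lemma large {G : ℕ → ℝ} {a : ℝ} (ha : 0 < a) (h : ∀ v : ℕ, 1 ≤ v → a ≤ G (v + 1) - G v) (M : ℝ) :
    ∃ q₀ : ℕ, ∀ q : ℕ, q₀ ≤ q → M ≤ G q := by
  obtain ⟨n, hn⟩ := exists_nat_ge ((M - G 1) / a + 1)
  refine ⟨n + 1, fun q hq => ?_⟩
  have h1 := step_sum h (le_refl 1) (show 1 ≤ q by omega)
  have h2 : (n : ℝ) ≤ ((q - 1 : ℕ) : ℝ) := by exact_mod_cast (by omega : n ≤ q - 1)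
  have h3 : (M - G 1) / a ≤ ((q - 1 : ℕ) : ℝ) := by linarith
  rw [div_le_iff₀ ha] at h3
  linarith

/-- **the heights `G v`** -/
theorem logThin_heights {B : Set ℝ} (hB : ∀ A : ℕ, ∃ T₀ : ℝ, ∀ T : ℝ, T₀ ≤ T →
    volume (B ∩ Set.Icc T (2 * T)) ≤ ENNReal.ofReal (T / Real.log T ^ A)) {G : ℕ → ℝ} (hG : Expanding G 1) :
    LogThin {v : ℕ | Set.Ico (G v) (G v + 2) ⊆ B} := by
  obtain ⟨a, ha, hstep⟩ := hG.step
  obtain ⟨v₀, hv₀⟩ := large ha hstep 0
  refine logThin_mono ?_ (logThin_union (logThin_lt v₀) (near_log (logThin_units hB) hG 0))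
  intro v hv
  rcases lt_or_ge v v₀ with h | h
  · exact Or.inl h
  · right
    have h0 := hv₀ v h
    have h1 := Nat.le_ceil (G v)
    have h2 := Nat.ceil_lt_add_one h0
    refine ⟨⌈G v⌉₊, ?_, ?_⟩
    · rintro x ⟨hx1, hx2⟩
      exact hv ⟨by linarith, by linarith⟩
    · rw [pow_zero, abs_le]
      constructor <;> linarith

/-- **Main tool for exceptional sets of real numbers.** -/
theorem real_windows {B : Set ℝ} (hB : ∀ A : ℕ, ∃ T₀ : ℝ, ∀ T : ℝ, T₀ ≤ T →
    volume (B ∩ Set.Icc T (2 * T)) ≤ ENNReal.ofReal (T / Real.log T ^ A)) (fs : List (ℕ → ℕ)) (hfs : ∀ f ∈ fs, PD f)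
    {G : ℕ → ℝ} (hG : Expanding G 1) (v₀ U : ℕ) : ∃ N₀ : ℕ, ∀ N : ℕ, N₀ ≤ N →
    ({m : ℕ | 1 ≤ m ∧ m ≤ N ∧ (comp fs m < v₀ ∨ Set.Ico (G (comp fs m)) (G (comp fs m) + 2) ⊆ B)}.ncard : ℝ) ≤
      N / Real.log N ^ U := by
  classical
  obtain ⟨K, hK⟩ := comp_log fs hfs (logThin_union (logThin_lt v₀) (logThin_heights hB hG)) (U + 1)
  obtain ⟨N₀, hN₀⟩ := exists_nat_ge (Real.exp (|K| + 1))
  refine ⟨N₀, fun N hN => ?_⟩
  have hN0' : Real.exp (|K| + 1) ≤ N := hN₀.trans (by exact_mod_cast hN)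
  have hN0 : (0 : ℝ) < N := lt_of_lt_of_le (Real.exp_pos _) hN0'
  have hN1 : 1 ≤ N := by exact_mod_cast hN0
  have hl : |K| + 1 ≤ Real.log N := by
    rw [Real.le_log_iff_exp_le hN0]
    exact hN0'
  have hK0 := abs_nonneg K
  have h2 := hK N hN1
  have h3 : {m : ℕ | 1 ≤ m ∧ m ≤ N ∧ (comp fs m < v₀ ∨ Set.Ico (G (comp fs m)) (G (comp fs m) + 2) ⊆ B)} ⊆
      (((range (N + 1)).filter (fun v => v ∈ comp fs ⁻¹' ({v : ℕ | v < v₀} ∪
        {v : ℕ | Set.Ico (G v) (G v + 2) ⊆ B})) : Finset ℕ) : Set ℕ) := by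
    rintro m ⟨hm1, hmN, hm⟩
    rw [mem_coe, mem_filter, mem_range]
    exact ⟨by omega, hm⟩
  have h4 := Set.ncard_le_ncard h3 (finite_toSet _)
  rw [Set.ncard_coe_finset] at h4
  have h5 : ({m : ℕ | 1 ≤ m ∧ m ≤ N ∧ (comp fs m < v₀ ∨ Set.Ico (G (comp fs m)) (G (comp fs m) + 2) ⊆ B)}.ncard : ℝ) ≤
      K * N / (1 + Real.log N) ^ (U + 1) := by
    refine le_trans (show _ ≤ ((((range (N + 1)).filter (fun v => v ∈ comp fs ⁻¹' ({v : ℕ | v < v₀} ∪
        {v : ℕ | Set.Ico (G v) (G v + 2) ⊆ B}))).card : ℕ) : ℝ) by exact_mod_cast h4) (le_trans (le_of_eq ?_) h2)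
    congr!
  refine h5.trans ?_
  have h6 : K * N ≤ Real.log N * N := mul_le_mul_of_nonneg_right (by linarith [le_abs_self K]) hN0.le
  have hl0 : 0 < Real.log N := by linarith
  calc K * N / (1 + Real.log N) ^ (U + 1) ≤ Real.log N * N / (1 + Real.log N) ^ (U + 1) := by gcongr
    _ ≤ Real.log N * N / Real.log N ^ (U + 1) := by
        apply div_le_div_of_nonneg_left (by positivity) (by positivity)
        exact pow_le_pow_left₀ hl0.le (by linarith) _
    _ = N / Real.log N ^ U := by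
        rw [pow_succ]
        field_simp

/-- moving the heights -/
lemma expanding_add {G : ℕ → ℝ} (hG : Expanding G 1) {η : ℝ} (h0 : 0 ≤ η) (h1 : η ≤ 1) :
    Expanding (fun v => G v + (v : ℝ) ^ η) 1 where
  one_le := le_rfl
  step := by
    obtain ⟨a, ha, hstep⟩ := hG.step
    refine ⟨a, ha, fun v hv => ?_⟩
    have := hstep v hv
    have h2 : (v : ℝ) ^ η ≤ ((v + 1 : ℕ) : ℝ) ^ η := by
      apply Real.rpow_le_rpow (Nat.cast_nonneg _) _ h0
      push_cast
      linarith
    linarith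
  growth := by
    obtain ⟨C, hC⟩ := hG.growth
    refine ⟨C + 1, fun v hv => ?_⟩
    have h2 := hC v hv
    have hv1 : (1 : ℝ) ≤ v := by exact_mod_cast hv
    have h3 : (v : ℝ) ^ η ≤ (v : ℝ) ^ (1 : ℝ) := Real.rpow_le_rpow_of_exponent_le hv1 h1
    linarith

end Pool.Agent.N897.AVR
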